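import Pool.Agent.Helper17.SL.GoalsB

/-!
Packet SL SUB: submodularity.
-/

namespace Pool.Agent.Helper17.SL.PkSUB

open Module

universe u v

theorem thm : S_SUB.{u, v} := by
  intro E _ _ W _ _ _ _ _ f a b hsub hinv hE A
  obtain ⟨n, hn⟩ : ∃ n, n = finrank ℚ W := ⟨_, rfl⟩
  have hd : ∀ A : Submodule ℚ W, finrank ℚ A ≤ n := fun A ↦ hn ▸ Submodule.finrank_le A
  obtain ⟨g, hg⟩ : ∃ g : Submodule ℚ W → ℕ, ∀ A, g A = b * f A + a * (n - finrank ℚ A) :=
    ⟨_, fun _ ↦ rfl⟩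
  have hgs : ∀ A B, g (A ⊔ B) + g (A ⊓ B) ≤ g A + g B := by
    intro A B
    have h1 := Submodule.finrank_sup_add_finrank_inf_eq A B
    have h2 := hsub A B
    have h3 : (n - finrank ℚ (A ⊔ B : Submodule ℚ W)) + (n - finrank ℚ (A ⊓ B : Submodule ℚ W)) =
        (n - finrank ℚ A) + (n - finrank ℚ B) := by
      have e1 := hd A
      have e2 := hd B
      have e3 := hd (A ⊔ B)
      have e4 := hd (A ⊓ B)
      omega
    have h4 := Nat.mul_le_mul_left b h2
    have h5 := congrArg (a * ·) h3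
    simp only [mul_add] at h4 h5
    rw [hg, hg, hg, hg]
    omega
  obtain ⟨h, hh⟩ : ∃ h : Submodule ℚ W → ℕ, ∀ A, h A = g A * (n + 1) + (n - finrank ℚ A) :=
    ⟨_, fun _ ↦ rfl⟩
  obtain ⟨A0, hA0⟩ : ∃ A0, ∀ A, h A0 ≤ h A := by
    obtain ⟨A0, -, h0⟩ := (measure h).wf.has_min Set.univ ⟨⊥, trivial⟩
    exact ⟨A0, fun A ↦ not_lt.1 (h0 A trivial)⟩
  have hmin : ∀ A, g A0 ≤ g A := by
    intro A
    by_contra hlt
    push Not at hlt
    have h1 := hA0 A
    rw [hh, hh] at h1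
    have h2 : (g A + 1) * (n + 1) ≤ g A0 * (n + 1) := Nat.mul_le_mul_right _ hlt
    have h3 : n - finrank ℚ A ≤ n := Nat.sub_le _ _
    have h4 : (g A + 1) * (n + 1) = g A * (n + 1) + (n + 1) := by ring
    omega
  have hmax : ∀ A, g A = g A0 → A ≤ A0 := by
    intro A hA
    have h1 := hgs A A0
    have h2 := hmin (A ⊔ A0)
    have h3 := hmin (A ⊓ A0)
    have h4 : g (A ⊔ A0) = g A0 := by omega
    have h5 := hA0 (A ⊔ A0)
    rw [hh, hh, h4] at h5
    have h6 := hd (A ⊔ A0)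
    have h7 := hd A0
    have h8 : finrank ℚ (A ⊔ A0 : Submodule ℚ W) ≤ finrank ℚ A0 := by omega
    have h9 : A0 = A ⊔ A0 := Submodule.eq_of_le_of_finrank_le le_sup_right h8
    rw [h9]
    exact le_sup_left
  have hinvg : ∀ c : E, c ≠ 0 → ∀ x ∈ A0, c • x ∈ A0 := by
    intro c hc x hx
    have h1 : g (A0.map ((LinearMap.lsmul E W c).restrictScalars ℚ)) = g A0 := by
      have hinj : Function.Injective ((LinearMap.lsmul E W c).restrictScalars ℚ) := by
        intro y z hyz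
        exact smul_right_injective W hc hyz
      have h2 := (Submodule.equivMapOfInjective _ hinj A0).finrank_eq
      rw [hg, hg, hinv c A0 hc, ← h2]
    exact hmax _ h1 ⟨x, hx, rfl⟩
  obtain ⟨A1, hA1⟩ : ∃ A1 : Submodule E W, A1.restrictScalars ℚ = A0 := by
    refine ⟨
      { carrier := A0
        add_mem' := fun hx hy ↦ A0.add_mem hx hy
        zero_mem' := A0.zero_mem
        smul_mem' := fun c x hx ↦ ?_ }, ?_⟩
    · by_cases hc : c = 0
      · rw [hc, zero_smul]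
        exact A0.zero_mem
      · exact hinvg c hc x hx
    · ext x
      rfl
  have h1 := hE A1
  rw [hA1] at h1
  have h2 := hmin A
  rw [hg, hg] at h2
  have h3 : a * (n - finrank ℚ A0) + a * finrank ℚ A0 = a * n := by
    rw [← mul_add, Nat.sub_add_cancel (hd A0)]
  have h4 : a * (n - finrank ℚ A) + a * finrank ℚ A = a * n := by
    rw [← mul_add, Nat.sub_add_cancel (hd A)]
  omega

end Pool.Agent.Helper17.SL.PkSUB
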