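import Pool.Agent.Helper17.SL.GoalsZE

/-!
Packet SL ZE1: the regular chain.
-/

namespace Pool.Agent.Helper17.SL.PkZE1

open Ideal

universe u v

/-- A subspace which is contained in no member of a finite family of subspaces has a vector outside
all of them. -/
lemma exists_out {K : Type u} [Field K] [Infinite K] {R : Type v} [AddCommGroup R] [Module K R]
    (V : Submodule K R) (S : Set (Submodule K R)) (hS : S.Finite) (h : ∀ Q ∈ S, ¬ V ≤ Q) :
    ∃ x ∈ V, ∀ Q ∈ S, x ∉ Q := by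
  classical
  have hfin : (hS.toFinset.image fun Q : Submodule K R ↦ Q.comap V.subtype).Nonempty ∨ True :=
    Or.inr trivial
  have key := Subspace.biUnion_ne_univ_of_top_notMem (k := K) (E := V)
    (s := hS.toFinset.image fun Q : Submodule K R ↦ Q.comap V.subtype) ?_
  · obtain ⟨x, hx⟩ := (Set.ne_univ_iff_exists_notMem _).1 key
    refine ⟨x, x.2, fun Q hQ hxQ ↦ hx ?_⟩
    simp only [Set.mem_iUnion]
    refine ⟨Q.comap V.subtype, ?_, ?_⟩
    · exact Finset.mem_image_of_mem _ (hS.mem_toFinset.2 hQ)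
    · exact hxQ
  · intro hmem
    obtain ⟨Q, hQ, hQ'⟩ := Finset.mem_image.1 hmem
    refine h Q (hS.mem_toFinset.1 hQ) fun x hx ↦ ?_
    have : (⟨x, hx⟩ : V) ∈ Q.comap V.subtype := by rw [hQ']; trivial
    exact this

theorem thm : S_ZE1.{u, v} := by
  classical
  intro K _ _ R _ _ _ _ V PP h hne hPP hQ
  have H : ∀ s : Finset R, s.card < h → ∃ x, x ∈ V ∧
      ∀ Q ∈ (span (s : Set R)).minimalPrimes, (∃ P ∈ PP, Q ≤ P) → x ∉ Q := by
    intro s hs
    have hfin : {Q : Ideal R | Q ∈ (span (s : Set R)).minimalPrimes ∧ ∃ P ∈ PP, Q ≤ P}.Finite :=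
      (Ideal.finite_minimalPrimes_of_isNoetherianRing R _).subset fun Q hQ ↦ hQ.1
    have hall : ∀ Q' ∈ (fun Q : Ideal R ↦ Q.restrictScalars K) ''
        {Q : Ideal R | Q ∈ (span (s : Set R)).minimalPrimes ∧ ∃ P ∈ PP, Q ≤ P}, ¬ V ≤ Q' := by
      intro Q' hQ' hle
      obtain ⟨Q, ⟨h1, P, hP, h2⟩, rfl⟩ := hQ'
      have h3 : (h : ℕ∞) ≤ Q.height := hQ P hP Q h1.1.1 h2 hle
      have h4 : Q.height ≤ s.card :=
        Ideal.height_le_card_of_mem_minimalPrimes_span_finset h1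
      have h5 : (h : ℕ∞) ≤ s.card := h3.trans h4
      have h6 : h ≤ s.card := by exact_mod_cast h5
      omega
    obtain ⟨x, hx, hx'⟩ := exists_out V _ (hfin.image _) hall
    exact ⟨x, hx, fun Q h1 h2 h3 ↦ hx' _ ⟨Q, ⟨h1, h2⟩, rfl⟩ h3⟩
  choose! pick hV hpick using H
  set s : ℕ → Finset R := fun n ↦ Nat.rec ∅ (fun _ s ↦ insert (pick s) s) n with hs
  have s0 : s 0 = ∅ := rfl
  have s1 : ∀ n, s (n + 1) = insert (pick (s n)) (s n) := fun n ↦ rfl
  have hc : ∀ n, (s n).card ≤ n := by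
    intro n
    induction n with
    | zero => simp [s0]
    | succ n ih =>
      rw [s1]
      exact (Finset.card_insert_le _ _).trans (by omega)
  have hsV : ∀ n, n ≤ h → ∀ x ∈ s n, x ∈ V := by
    intro n
    induction n with
    | zero => simp [s0]
    | succ n ih =>
      intro hn x hx
      rw [s1, Finset.mem_insert] at hx
      rcases hx with rfl | hx
      · exact hV _ (by have := hc n; omega)
      · exact ih (by omega) x hx
  refine ⟨fun n ↦ sInf {Q : Ideal R | Q ∈ (span (s n : Set R)).minimalPrimes ∧ ∃ P ∈ PP, Q ≤ P},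
    fun n ↦ pick (s n), ?_, ?_, ?_⟩
  · have : {Q : Ideal R | Q ∈ (span (s 0 : Set R)).minimalPrimes ∧ ∃ P ∈ PP, Q ≤ P} = {⊥} := by
      ext Q
      rw [s0, Finset.coe_empty, Ideal.span_empty]
      have hb : (⊥ : Ideal R).minimalPrimes = {⊥} := IsDomain.minimalPrimes_eq_singleton_bot R
      rw [hb]
      simp only [Set.mem_singleton_iff, Set.mem_ofPred_eq]
      constructor
      · exact fun h ↦ h.1
      · rintro rfl
        obtain ⟨P, hP⟩ := hne
        exact ⟨rfl, P, hP, bot_le⟩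
    show sInf {Q : Ideal R | Q ∈ (span (s 0 : Set R)).minimalPrimes ∧ ∃ P ∈ PP, Q ≤ P} = ⊥
    rw [this, sInf_singleton]
  · intro P hP
    have h1 : span (s h : Set R) ≤ P := by
      rw [span_le]
      exact fun x hx ↦ (hPP P hP).2.2 (hsV h le_rfl x hx)
    have := (hPP P hP).1
    obtain ⟨Q, hQ1, hQ2⟩ := Ideal.exists_minimalPrimes_le h1
    exact (sInf_le (show Q ∈ {Q : Ideal R | Q ∈ (span (s h : Set R)).minimalPrimes ∧
      ∃ P ∈ PP, Q ≤ P} from ⟨hQ1, P, hP, hQ2⟩)).trans hQ2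
  · intro i hi
    have hci : (s i).card < h := (hc i).trans_lt hi
    refine ⟨hV _ hci, ?_, ?_, ?_⟩
    · refine le_sInf ?_
      rintro Q' ⟨h1, P, hP, h2⟩
      have h3 : span (s i : Set R) ≤ Q' := by
        refine le_trans (span_mono ?_) h1.1.2
        rw [s1, Finset.coe_insert]
        exact Set.subset_insert _ _
      have := h1.1.1
      obtain ⟨Q, hQ1, hQ2⟩ := Ideal.exists_minimalPrimes_le h3
      exact (sInf_le (show Q ∈ {Q : Ideal R | Q ∈ (span (s i : Set R)).minimalPrimes ∧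
        ∃ P ∈ PP, Q ≤ P} from ⟨hQ1, P, hP, hQ2.trans h2⟩)).trans hQ2
    · rw [Ideal.mem_sInf]
      rintro Q' ⟨h1, P, hP, h2⟩
      refine h1.1.2 (subset_span ?_)
      rw [s1, Finset.coe_insert]
      exact Set.mem_insert _ _
    · intro g hg
      rw [Ideal.mem_sInf] at hg ⊢
      rintro Q ⟨h1, h2⟩
      have h3 := hg ⟨h1, h2⟩
      exact (h1.1.1.mem_or_mem h3).resolve_left (hpick _ hci Q h1 h2)

end Pool.Agent.Helper17.SL.PkZE1
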