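import Pool.Agent.Helper87.SL.Goals

/-! Packet SL-CS: a common almost period of the representation functions of all colour classes. -/

set_option autoImplicit false

open Finset

namespace Pool.Agent.Helper33.SL

open Pool.Agent.Helper87.SL

theorem rep_sum (A t : Finset ℕ) : ∑ m ∈ t, rep A m ≤ A.card ^ 2 := by
  unfold rep
  rw [← card_biUnion]
  · calc (t.biUnion fun m => (A ×ˢ A).filter (fun p => p.1 + p.2 = m)).card
        ≤ (A ×ˢ A).card := by
          refine card_le_card fun p hp => ?_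
          rw [mem_biUnion] at hp
          obtain ⟨m, _, h⟩ := hp
          exact (mem_filter.1 h).1
      _ = A.card ^ 2 := by rw [card_product, sq]
  · intro x _ y _ hxy
    rw [Function.onFun, disjoint_left]
    intro p hp hq
    exact hxy ((mem_filter.1 hp).2.symm.trans (mem_filter.1 hq).2)

theorem rep_sum_shift (A : Finset ℕ) (n q : ℕ) :
    ∑ m ∈ Icc 1 n, rep A (m + q) ≤ A.card ^ 2 := by
  have h := rep_sum A ((Icc 1 n).map (addRightEmbedding q))
  rw [sum_map] at h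
  exact h

theorem small_case (A : Finset ℕ) (n q : ℕ) (ε : ℝ) (hε : 0 < ε) (h1 : ε ≤ 1)
    (ha : (A.card : ℝ) < ε / 2 * n) :
    ∑ m ∈ Icc 1 n, |(rep A (m + q) : ℝ) - rep A m| ≤ ε * (n : ℝ) ^ 2 := by
  have e1 : ∑ m ∈ Icc 1 n, |(rep A (m + q) : ℝ) - rep A m| ≤
      ∑ m ∈ Icc 1 n, ((rep A (m + q) : ℝ) + rep A m) := by
    refine sum_le_sum fun m _ => ?_
    have h2 : (0 : ℝ) ≤ rep A (m + q) := Nat.cast_nonneg _
    have h3 : (0 : ℝ) ≤ rep A m := Nat.cast_nonneg _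
    rw [abs_le]
    constructor <;> linarith
  have e2 : ∑ m ∈ Icc 1 n, (rep A (m + q) : ℝ) ≤ (A.card : ℝ) ^ 2 := by
    exact_mod_cast rep_sum_shift A n q
  have e3 : ∑ m ∈ Icc 1 n, (rep A m : ℝ) ≤ (A.card : ℝ) ^ 2 := by
    exact_mod_cast rep_sum A (Icc 1 n)
  rw [sum_add_distrib] at e1
  have e4 : (A.card : ℝ) ^ 2 ≤ (ε / 2 * n) ^ 2 :=
    pow_le_pow_left₀ (Nat.cast_nonneg _) ha.le 2
  have e5 : (ε / 2 * n) ^ 2 = ε / 4 * (ε * (n : ℝ) ^ 2) := by ring
  have e6 : (0 : ℝ) ≤ ε * (n : ℝ) ^ 2 := by positivity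
  nlinarith

theorem markov (hV : G_VAR) (A : Finset ℕ) (K M : ℕ) (hK : 1 ≤ K) (hA : A.Nonempty) :
    (A.card : ℝ) ^ K / 2 ≤ (((Fintype.piFinset (fun _ : Fin K => A)).filter
      (fun I => ∑ m ∈ range M, (smp A I m - rep A m) ^ 2 ≤ 2 * (A.card : ℝ) ^ 3 / K)).card : ℝ) := by
  classical
  set T := Fintype.piFinset (fun _ : Fin K => A) with hT
  set f : (Fin K → ℕ) → ℝ := fun I => ∑ m ∈ range M, (smp A I m - rep A m) ^ 2 with hf
  have hv := hV A K M hK hA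
  have hcard : (T.card : ℝ) = (A.card : ℝ) ^ K := by
    rw [hT, Fintype.card_piFinset]
    simp
  have ha : (0 : ℝ) < A.card := by exact_mod_cast hA.card_pos
  have hK0 : (0 : ℝ) < K := by exact_mod_cast hK
  have hf0 : ∀ I, 0 ≤ f I := fun I => sum_nonneg fun m _ => sq_nonneg _
  set B := 2 * (A.card : ℝ) ^ 3 / K with hB
  have hB0 : 0 < B := by positivity
  have h1 : ((T.filter (fun I => ¬ f I ≤ B)).card : ℝ) * B ≤ ∑ I ∈ T, f I := by
    calc ((T.filter (fun I => ¬ f I ≤ B)).card : ℝ) * B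
        = ∑ I ∈ T.filter (fun I => ¬ f I ≤ B), B := by rw [sum_const, nsmul_eq_mul]
      _ ≤ ∑ I ∈ T.filter (fun I => ¬ f I ≤ B), f I := by
          refine sum_le_sum fun I hI => ?_
          exact (not_le.1 (mem_filter.1 hI).2).le
      _ ≤ ∑ I ∈ T, f I := sum_le_sum_of_subset_of_nonneg (filter_subset _ _)
          fun I _ _ => hf0 I
  have h2 : ((T.filter (fun I => ¬ f I ≤ B)).card : ℝ) * B ≤ (A.card : ℝ) ^ K / 2 * B := by
    refine h1.trans (hv.trans (le_of_eq ?_))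
    rw [hB]
    ring
  have h3 := le_of_mul_le_mul_right h2 hB0
  have h4 : ((T.filter (fun I => f I ≤ B)).card : ℝ) +
      ((T.filter (fun I => ¬ f I ≤ B)).card : ℝ) = T.card := by
    exact_mod_cast card_filter_add_card_filter_not (s := T) (fun I => f I ≤ B)
  rw [hcard] at h4
  linarith

theorem large_case (hS : G_SHF) (A : Finset ℕ) (n q K : ℕ) (I : Fin K → ℕ) (ε : ℝ) (hε : 0 < ε)
    (hn : 1 ≤ n) (hq : q ≤ n) (hK : 1 ≤ K) (hK8 : 8 ≤ ε ^ 2 * K) (hAn : A ⊆ Icc 1 n)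
    (h1 : ∑ m ∈ range (4 * n), (smp A I m - rep A m) ^ 2 ≤ 2 * (A.card : ℝ) ^ 3 / K)
    (h2 : ∑ m ∈ range (4 * n), (smp A (fun j => I j + q) m - rep A m) ^ 2 ≤
      2 * (A.card : ℝ) ^ 3 / K) :
    ∑ m ∈ Icc 1 n, |(rep A (m + q) : ℝ) - rep A m| ≤ ε * (n : ℝ) ^ 2 := by
  have h := hS K n q A I _ hn hq h1 h2
  have hK0 : (0 : ℝ) < K := by exact_mod_cast hK
  have hn0 : (0 : ℝ) < n := by exact_mod_cast hn
  have ha : (A.card : ℝ) ≤ n := by
    have := card_le_card hAn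
    rw [Nat.card_Icc] at this
    exact_mod_cast (show A.card ≤ n by omega)
  have ha3 : (A.card : ℝ) ^ 3 ≤ (n : ℝ) ^ 3 := pow_le_pow_left₀ (Nat.cast_nonneg _) ha 3
  have e1 : (n : ℝ) * (4 * (2 * (A.card : ℝ) ^ 3 / K)) ≤ (ε * (n : ℝ) ^ 2) ^ 2 := by
    have e2 : (n : ℝ) * (4 * (2 * (A.card : ℝ) ^ 3 / K)) = 8 * (n * (A.card : ℝ) ^ 3) / K := by
      ring
    rw [e2, div_le_iff₀ hK0]
    have e3 : (n : ℝ) * (A.card : ℝ) ^ 3 ≤ n * (n : ℝ) ^ 3 :=
      mul_le_mul_of_nonneg_left ha3 hn0.le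
    have e4 : (ε * (n : ℝ) ^ 2) ^ 2 * K = (ε ^ 2 * K) * (n * (n : ℝ) ^ 3) := by ring
    rw [e4]
    have e5 : (0 : ℝ) ≤ n * (n : ℝ) ^ 3 := by positivity
    nlinarith
  by_contra hc
  rw [not_le] at hc
  have e6 : (ε * (n : ℝ) ^ 2) ^ 2 <
      (∑ m ∈ Icc 1 n, |(rep A (m + q) : ℝ) - rep A m|) ^ 2 :=
    pow_lt_pow_left₀ hc (by positivity) two_ne_zero
  linarith

theorem gCS : Pool.Agent.Helper87.SL.G_CS := by
  classical
  intro hV hP hS k ε0 hε0
  set ε := min ε0 1 with hε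
  have he0 : 0 < ε := lt_min hε0 one_pos
  have he1 : ε ≤ 1 := min_le_right _ _
  have hee : ε ≤ ε0 := min_le_left _ _
  obtain ⟨K, hK⟩ := exists_nat_ge (max (8 / ε ^ 2) 1)
  have hK1 : 1 ≤ K := by exact_mod_cast (le_max_right _ _).trans hK
  have hK8 : 8 ≤ ε ^ 2 * K := by
    have h := (le_max_left _ _).trans hK
    rw [div_le_iff₀ (by positivity)] at h
    linarith
  have hδ : 0 < (ε / 2) ^ K / 2 := by positivity
  obtain ⟨Q, hQ1, hQ⟩ := hP k K _ hδ
  refine ⟨Q, Q + 1, fun n hn A hA => ?_⟩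
  have hn1 : 1 ≤ n := by omega
  have hn0 : (0 : ℝ) < n := by exact_mod_cast hn1
  set L : Fin k → Finset (Fin K → ℕ) := fun c =>
    if ((A c).card : ℝ) < ε / 2 * n then Fintype.piFinset (fun _ : Fin K => Icc 1 n)
    else (Fintype.piFinset (fun _ : Fin K => A c)).filter
      (fun I => ∑ m ∈ range (4 * n), (smp (A c) I m - rep (A c) m) ^ 2 ≤
        2 * ((A c).card : ℝ) ^ 3 / K) with hL
  have hL1 : ∀ c, ∀ I ∈ L c, ∀ j, I j ∈ Icc 1 n := by
    intro c I hI j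
    simp only [hL] at hI
    split_ifs at hI with hc
    · exact Fintype.mem_piFinset.1 hI j
    · exact hA c (Fintype.mem_piFinset.1 (mem_filter.1 hI).1 j)
  have hL2 : ∀ c, (ε / 2) ^ K / 2 * (n : ℝ) ^ K ≤ (L c).card := by
    intro c
    simp only [hL]
    split_ifs with hc
    · rw [Fintype.card_piFinset]
      simp only [Nat.card_Icc, Nat.add_sub_cancel, prod_const, card_univ, Fintype.card_fin,
        Nat.cast_pow]
      have e1 : (ε / 2) ^ K ≤ 1 := pow_le_one₀ (by positivity) (by linarith)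
      have e2 : (0 : ℝ) ≤ (n : ℝ) ^ K := by positivity
      nlinarith
    · have ha : 0 < (A c).card := by
        rw [not_lt] at hc
        have : (0 : ℝ) < (A c).card := lt_of_lt_of_le (by positivity) hc
        exact_mod_cast this
      have hm := markov hV (A c) K (4 * n) hK1 (card_pos.1 ha)
      refine le_trans ?_ hm
      have e1 : (ε / 2 * n) ^ K ≤ ((A c).card : ℝ) ^ K :=
        pow_le_pow_left₀ (by positivity) (not_lt.1 hc) K
      rw [mul_pow] at e1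
      linarith
  obtain ⟨q, hq1, hqQ, hq⟩ := hQ n (by omega) L hL1 hL2
  refine ⟨q, hq1, hqQ, fun c => ?_⟩
  obtain ⟨I, hI1, hI2⟩ := hq c
  have hfin : ∑ m ∈ Icc 1 n, |(rep (A c) (m + q) : ℝ) - rep (A c) m| ≤ ε * (n : ℝ) ^ 2 := by
    by_cases hc : ((A c).card : ℝ) < ε / 2 * n
    · exact small_case (A c) n q ε he0 he1 hc
    · simp only [hL, if_neg hc] at hI1 hI2
      exact large_case hS (A c) n q K I ε he0 hn1 (by omega) hK1 hK8 (hA c)
        (mem_filter.1 hI1).2 (mem_filter.1 hI2).2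
  refine hfin.trans ?_
  have : (0 : ℝ) ≤ (n : ℝ) ^ 2 := by positivity
  exact mul_le_mul_of_nonneg_right hee this

end Pool.Agent.Helper33.SL
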